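import Pool.Agent.H499R2.HL.E

/-!
Natural density: within the integers which reach `1`, the odd `n` and the even `n = 2 m` with
`T^k m ≤ 5 m` for all `k` have relative density at least `9/10`.
-/

set_option autoImplicit false

namespace Pool.Agent.Y296.CB.DD

open Finset Filter Topology

open Pool.Agent.H499R2.ND (Dn cnt Tn Bdd rK cnt_eq inv_next inv_prog)
open Pool.Agent.H499R2.LT (Dn_add Dn_iff)

theorem cnt_half (Q : ℕ → Prop) (N : ℕ) : cnt (fun n => n % 2 = 0 ∧ Q (n / 2)) N = cnt Q (N / 2) := by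
  classical
  rw [cnt_eq, cnt_eq]
  congr 1
  symm
  apply Finset.card_bij (fun m _ => 2 * m)
  · intro m hm
    rw [mem_filter, mem_Icc] at hm ⊢
    obtain ⟨⟨h1, h2⟩, h3⟩ := hm
    refine ⟨⟨by omega, by omega⟩, by omega, ?_⟩
    rw [Nat.mul_div_cancel_left m (by norm_num)]
    exact h3
  · intro a _ b _ h
    omega
  · intro n hn
    rw [mem_filter, mem_Icc] at hn
    obtain ⟨⟨h1, h2⟩, h3, h4⟩ := hn
    refine ⟨n / 2, ?_, by omega⟩
    rw [mem_filter, mem_Icc]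
    exact ⟨⟨by omega, Nat.div_le_div_right h2⟩, h4⟩

theorem Dn_half {Q : ℕ → Prop} {d : ℝ} (hQ : Dn Q d) : Dn (fun n => n % 2 = 0 ∧ Q (n / 2)) (d / 2) := by
  unfold Dn at hQ ⊢
  have hdiv : Tendsto (fun N : ℕ => N / 2) atTop atTop := by
    apply Filter.tendsto_atTop_atTop.2
    intro b
    exact ⟨2 * b, fun a ha => by omega⟩
  have h1 : Tendsto (fun N : ℕ => cnt Q (N / 2) / ((N / 2 : ℕ) : ℝ)) atTop (𝓝 d) := hQ.comp hdiv
  have h2 : Tendsto (fun N : ℕ => ((N / 2 : ℕ) : ℝ) / N) atTop (𝓝 (1 / 2)) := by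
    rw [Metric.tendsto_atTop]
    intro ε hε
    obtain ⟨N0, hN0⟩ := exists_nat_gt (1 / ε)
    refine ⟨N0 + 1, fun N hN => ?_⟩
    have hN1 : (0 : ℝ) < N := by
      have : 0 < N := by omega
      exact_mod_cast this
    have h3 : (N0 : ℝ) < N := by
      have : N0 < N := by omega
      exact_mod_cast this
    have h4 : (N : ℝ) = 2 * ((N / 2 : ℕ) : ℝ) + ((N % 2 : ℕ) : ℝ) := by
      exact_mod_cast (Nat.div_add_mod N 2).symm
    have h5 : ((N % 2 : ℕ) : ℝ) ≤ 1 := by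
      have : N % 2 ≤ 1 := by omega
      exact_mod_cast this
    have h6 : (0 : ℝ) ≤ ((N % 2 : ℕ) : ℝ) := by positivity
    have h7 : 1 / ε < N := hN0.trans h3
    rw [Real.dist_eq]
    have h8 : ((N / 2 : ℕ) : ℝ) / N - 1 / 2 = -((N % 2 : ℕ) : ℝ) / (2 * N) := by
      field_simp
      linarith
    rw [h8, abs_div, abs_neg, abs_of_nonneg h6, abs_of_pos (by positivity), div_lt_iff₀ (by positivity)]
    rw [div_lt_iff₀ hε] at h7
    nlinarith
  have h3 := h1.mul h2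
  rw [show d * (1 / 2) = d / 2 by ring] at h3
  refine h3.congr' ?_
  filter_upwards [eventually_ge_atTop 2] with N hN
  have hN1 : (0 : ℝ) < ((N / 2 : ℕ) : ℝ) := by
    have : 0 < N / 2 := by omega
    exact_mod_cast this
  have hN2 : (0 : ℝ) < N := by
    have : 0 < N := by omega
    exact_mod_cast this
  rw [cnt_half]
  field_simp

/-- reaching `1` -/
def Rch (n : ℕ) : Prop := ∃ k : ℕ, Tn^[k] n = 1

theorem Rch_inv (n : ℕ) : Rch n ↔ Rch (Tn n) := by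
  constructor
  · rintro ⟨k, hk⟩
    rcases k with _ | k
    · have h1 : n = 1 := hk
      subst h1
      exact ⟨1, rfl⟩
    · exact ⟨k, by rw [← Function.iterate_succ_apply]; exact hk⟩
  · rintro ⟨k, hk⟩
    exact ⟨k + 1, by rw [Function.iterate_succ_apply]; exact hk⟩

theorem Bdd_of_Rch {n : ℕ} (h : Rch n) : Bdd n := by
  obtain ⟨k, hk⟩ := h
  have h1 := Pool.Agent.H499R2.ND.Bdd_iter n k
  rw [h1, hk]
  refine ⟨2, fun j => ?_⟩
  have h2 : ∀ j, Tn^[j] 1 = 1 ∨ Tn^[j] 1 = 2 := by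
    intro j
    induction j with
    | zero => exact Or.inl rfl
    | succ j ih =>
      rw [Function.iterate_succ_apply']
      rcases ih with h | h <;> rw [h]
      · exact Or.inr rfl
      · exact Or.inl rfl
  rcases h2 j with h | h <;> omega

theorem Tn_two_mul (m : ℕ) : Tn (2 * m) = m := by
  simp only [Tn]; rw [if_pos (by omega)]; omega

/-- **Density.** -/
theorem dens_good : ∃ δ κ : ℝ, 0 < δ ∧ δ ≤ 1 ∧ (δ = 1 ↔ ∀ n : ℕ, 1 ≤ n → ∃ k : ℕ, Tn^[k] n = 1) ∧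
    Dn (fun n => ∃ k : ℕ, Tn^[k] n = 1) δ ∧ 9 / 10 ≤ κ ∧ κ ≤ 1 ∧
    Dn (fun n => (∃ k : ℕ, Tn^[k] n = 1) ∧ (n % 2 = 1 ∨ ∀ k, Tn^[k] (n / 2) ≤ 5 * (n / 2))) (κ * δ) := by
  obtain ⟨δ, h0, h1, h2, h3, -⟩ := Pool.Agent.H499R2.LT.law_one
  obtain ⟨β, _, _, _, hβ⟩ := Pool.Agent.H499R2.ND.Bdd_density
  obtain ⟨q, g1, g2, g3, g4⟩ := Pool.Agent.H499R2.ND.exc_law hβ (lam := 5) (by norm_num)
  have h5 : Dn (fun n => Rch n ∧ ∀ k, ((Tn^[k] n : ℕ) : ℝ) ≤ 5 * n) (δ * q) :=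
    Pool.Agent.H499R2.HL.joint_exc hβ (P := Rch) (fun n h => Bdd_of_Rch h) h3 (inv_next Rch_inv)
      (by norm_num) g1 g4
  have h6 := Dn_half h5
  have h7 : Dn (fun n => n % 2 = 1 ∧ Rch n) (δ / 2) := by
    have := inv_prog Rch_inv h3 (q := 2) (by norm_num) 1
    exact_mod_cast this
  have h8 := Dn_add h7 h6 (fun n h => by
    obtain ⟨⟨a, _⟩, b, _⟩ := h
    omega)
  refine ⟨δ, (1 + q) / 2, h0, h1, h2, h3, by norm_num at g2; linarith, by linarith, ?_⟩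
  have e : δ / 2 + δ * q / 2 = (1 + q) / 2 * δ := by ring
  rw [e] at h8
  refine Dn_iff (fun n hn => ?_) h8
  have hev : n % 2 = 0 → (Rch n ↔ Rch (n / 2)) := by
    intro h
    have h9 := Rch_inv n
    have h10 : Tn n = n / 2 := by
      have := Tn_two_mul (n / 2)
      rwa [show 2 * (n / 2) = n by omega] at this
    rw [h10] at h9
    exact h9
  constructor
  · rintro (⟨a, b⟩ | ⟨a, b, c⟩)
    · exact ⟨b, Or.inl a⟩
    · exact ⟨(hev a).2 b, Or.inr fun k => by exact_mod_cast c k⟩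
  · rintro ⟨a, b⟩
    rcases Nat.mod_two_eq_zero_or_one n with h | h
    · right
      refine ⟨h, (hev h).1 a, fun k => ?_⟩
      rcases b with b | b
      · omega
      · exact_mod_cast b k
    · left; exact ⟨h, a⟩

/-! ### Unconditional lower density -/

open Pool.Agent.H499R2.ND (cnt_mono cnt_or zd_iff zd_bdd hit full_zd early th th_pos th_lt AK dn_AK rK_ge
  exists_nK iter_real er_le od_le true_density mu_pos' cnt_small)
open Pool.Agent.H319R2.Lln (mu)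
open Pool.Agent.Helper894.Collatz (od er)

/-- reaching a value at most `y` before exceeding `5 n` -/
def Q5 (y n : ℕ) : Prop := ∃ K, Tn^[K] n ≤ y ∧ ∀ k ≤ K, Tn^[k] n ≤ 5 * n

theorem Q5_count {ε : ℝ} (hε : 0 < ε) : ∃ y : ℕ, ∀ᶠ N : ℕ in atTop, (4 / 5 - ε) * N ≤ cnt (Q5 y) N := by
  classical
  have hmu := mu_pos'
  have hth := th_pos
  have hth1 := th_lt
  obtain ⟨y, hy⟩ := hit (κ := 2 / Real.log (4 / 3) + 1) (by linarith) (ε := ε / 8) (by positivity)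
  have h1 : Tendsto (fun K => 4 * th ^ K / (1 - th)) atTop (𝓝 0) := by
    have := ((tendsto_pow_atTop_nhds_zero_of_lt_one hth.le hth1).const_mul 4).div_const (1 - th)
    simpa using this
  obtain ⟨K, hK⟩ := (h1.eventually (gt_mem_nhds (show (0 : ℝ) < ε / 8 by positivity))).exists
  obtain ⟨n1, hn1⟩ := exists_nK K 5
  refine ⟨y, ?_⟩
  have h3 := dn_AK (P := fun _ => True) (fun n => Iff.rfl) true_density K 5
  have h3' := h3.eventually (lt_mem_nhds (show rK K 5 * 1 - ε / 8 < rK K 5 * 1 by linarith))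
  have h4 := zd_iff.1 (full_zd (ε := mu / 2) (by positivity) (fun a => a ≤ y)) (ε / 8) (by positivity)
  have h5 := zd_iff.1 (zd_bdd n1) (ε / 8) (by positivity)
  filter_upwards [hy, h3', h4, h5, eventually_gt_atTop 0] with N g1 g2 g3 g4 g5
  have hN : (0 : ℝ) < N := by exact_mod_cast g5
  have g6 := early K N
  have hr := rK_ge (lam := 5) (by norm_num) K
  rw [lt_div_iff₀ hN] at g2
  have key : cnt (fun n => AK K 5 n ∧ True) N ≤ cnt (Q5 y) N
      + (cnt (fun n => ∀ j : ℕ, (j : ℝ) ≤ (2 / Real.log (4 / 3) + 1) * Real.log n → y < Tn^[j] n) N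
      + (cnt (fun n : ℕ => (∃ k, Tn^[k] n ≤ y) ∧ ¬ ∃ t : ℕ, Tn^[t] n ≤ y ∧ (∀ j < t, ¬ Tn^[j] n ≤ y) ∧
        ∀ j ≤ t, |Real.log ((Tn^[j] n : ℕ) : ℝ) - Real.log n + mu * j| ≤ mu / 2 * Real.log n) N
      + (cnt (fun n => ∃ k, K ≤ k ∧ 2 ^ k ≤ n ∧ n ≤ Tn^[k] n) N + cnt (fun n : ℕ => (n : ℝ) ≤ n1) N))) := by
    refine (cnt_or N (Q := Q5 y) (R := fun n => (∀ j : ℕ, (j : ℝ) ≤ (2 / Real.log (4 / 3) + 1) * Real.log n →
      y < Tn^[j] n) ∨ (((∃ k, Tn^[k] n ≤ y) ∧ ¬ ∃ t : ℕ, Tn^[t] n ≤ y ∧ (∀ j < t, ¬ Tn^[j] n ≤ y) ∧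
        ∀ j ≤ t, |Real.log ((Tn^[j] n : ℕ) : ℝ) - Real.log n + mu * j| ≤ mu / 2 * Real.log n) ∨
        ((∃ k, K ≤ k ∧ 2 ^ k ≤ n ∧ n ≤ Tn^[k] n) ∨ (n : ℝ) ≤ n1))) fun n hn hnN hp => ?_).trans
      (add_le_add le_rfl ((cnt_or N fun n _ _ h => h).trans (add_le_add le_rfl
        ((cnt_or N fun n _ _ h => h).trans (add_le_add le_rfl (cnt_or N fun n _ _ h => h))))))
    by_contra hcon
    push Not at hcon
    obtain ⟨hc1, ⟨j, _, hj⟩, hc2, hc3, hc4⟩ := hcon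
    obtain ⟨t, ht, _, hprof⟩ := hc2 ⟨j, hj⟩
    apply hc1
    refine ⟨t, ht, fun k hkt => ?_⟩
    have hnR : (0 : ℝ) < n := by exact_mod_cast hn
    by_contra hlt
    push Not at hlt
    have hle : n ≤ Tn^[k] n := by omega
    have h2k : 2 ^ k ≤ n := by
      by_contra hlt2
      push Not at hlt2
      have h6 := (abs_le.1 (hprof k hkt)).2
      have h7 : Real.log n ≤ Real.log ((Tn^[k] n : ℕ) : ℝ) := Real.log_le_log hnR (by exact_mod_cast hle)
      have h8 : Real.log n < k * Real.log 2 := by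
        rw [← Real.log_pow]
        exact Real.log_lt_log hnR (by exact_mod_cast hlt2)
      have h9 : Real.log 2 < 1 := by
        have := Real.log_two_lt_d9; linarith
      have h10 : 0 ≤ Real.log (n : ℝ) := Real.log_natCast_nonneg n
      have h11 : (k : ℝ) * Real.log 2 ≤ k := by
        have : (0 : ℝ) ≤ k := Nat.cast_nonneg k
        nlinarith
      have h12 : mu * Real.log n < mu * k := mul_lt_mul_of_pos_left (by linarith) hmu
      nlinarith
    have hkK : k < K := by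
      by_contra hge
      exact absurd hle (not_le.2 (hc3 k (by omega) h2k))
    have hk1 : 1 ≤ k := by
      by_contra h0
      have : k = 0 := by omega
      subst this
      simp only [Function.iterate_zero, id] at hlt
      omega
    have h4 := hp.1 k hk1 hkK.le
    have h5 := hn1 k hkK.le (od k n) ((od_le k n).trans hkK.le) h4
    have h6 := iter_real k n
    have h7 : (er k n : ℝ) ≤ 3 ^ K := by
      have h8 : er k n ≤ 3 ^ k := by
        have := er_le k n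
        exact le_trans (Nat.le_add_right _ _) this
      have h9 : 3 ^ k ≤ 3 ^ K := Nat.pow_le_pow_right (by norm_num) hkK.le
      exact_mod_cast h8.trans h9
    have h8 : (5 * 2 ^ k - 3 ^ od k n) * (n1 : ℝ) ≤ (5 * 2 ^ k - 3 ^ od k n) * n :=
      mul_le_mul_of_nonneg_left hc4.le (by linarith)
    have h9 : (2 : ℝ) ^ k * ((Tn^[k] n : ℕ) : ℝ) ≤ 2 ^ k * (5 * n) := by
      rw [h6]
      have : (2 : ℝ) ^ k * (5 * n) = 3 ^ od k n * n + (5 * 2 ^ k - 3 ^ od k n) * n := by ring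
      rw [this]; linarith
    have h10 := le_of_mul_le_mul_left h9 (by positivity)
    have h11 : (5 * (n : ℝ)) < ((Tn^[k] n : ℕ) : ℝ) := by exact_mod_cast hlt
    linarith
  have g7 : 4 * th ^ K / (1 - th) * N ≤ ε / 8 * N := mul_le_mul_of_nonneg_right hK.le hN.le
  have g8 : (4 / 5 - ε / 8) * N ≤ (rK K 5 * 1 - ε / 8) * N := by
    apply mul_le_mul_of_nonneg_right _ hN.le
    linarith
  have g9 : 0 < ε * N := by positivity
  linarith

/-- **Unconditional lower density.** -/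
theorem dens_low {ε : ℝ} (hε : 0 < ε) : ∃ y : ℕ, ∀ᶠ N : ℕ in atTop, (9 / 10 - ε) * N ≤
    cnt (fun n => (n % 2 = 1 ∧ ∃ K, Tn^[K] n ≤ y) ∨ (n % 2 = 0 ∧ Q5 y (n / 2))) N := by
  classical
  obtain ⟨y1, hy1⟩ := Q5_count (ε := ε) hε
  obtain ⟨y2, hy2⟩ := hit (κ := 2 / Real.log (4 / 3) + 1) (by linarith) (ε := ε / 4) (by positivity)
  refine ⟨max y1 y2, ?_⟩
  have hdiv : Tendsto (fun N : ℕ => N / 2) atTop atTop := by
    apply Filter.tendsto_atTop_atTop.2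
    intro b
    exact ⟨2 * b, fun a ha => by omega⟩
  have h1 := hdiv.eventually hy1
  have h3 := (Pool.Agent.H499R2.ND.odd_density).eventually
    (lt_mem_nhds (show 1 / 2 - ε / 8 < (1 : ℝ) / 2 by linarith))
  obtain ⟨N0, hN0⟩ := exists_nat_gt (8 / ε)
  filter_upwards [h1, hy2, h3, eventually_gt_atTop N0] with N g1 g2 g3 g4
  have hN0' : (N0 : ℝ) < N := by exact_mod_cast g4
  have hN : (0 : ℝ) < N := lt_of_le_of_lt (Nat.cast_nonneg N0) hN0'
  have hNe : 8 < ε * N := by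
    have : 8 / ε < N := hN0.trans hN0'
    rw [div_lt_iff₀ hε] at this
    linarith
  rw [lt_div_iff₀ hN] at g3
  -- the odd part
  have k1 : cnt (fun n : ℕ => n % 2 = 1) N ≤
      cnt (fun n => n % 2 = 1 ∧ ∃ K, Tn^[K] n ≤ max y1 y2) N +
      cnt (fun n => ∀ j : ℕ, (j : ℝ) ≤ (2 / Real.log (4 / 3) + 1) * Real.log n → y2 < Tn^[j] n) N := by
    refine cnt_or N fun n _ _ hp => ?_
    by_contra hcon
    push Not at hcon
    obtain ⟨c1, j, _, hj⟩ := hcon
    exact absurd (c1 hp j) (not_lt.2 (hj.trans (le_max_right _ _)))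
  -- the even part
  have k2 : cnt (Q5 y1) (N / 2) ≤ cnt (fun n => n % 2 = 0 ∧ Q5 (max y1 y2) (n / 2)) N := by
    rw [← cnt_half]
    refine cnt_mono N fun n _ _ h => ⟨h.1, ?_⟩
    obtain ⟨K, hK, hK2⟩ := h.2
    exact ⟨K, hK.trans (le_max_left _ _), hK2⟩
  have k3 : cnt (fun n => n % 2 = 1 ∧ ∃ K, Tn^[K] n ≤ max y1 y2) N +
      cnt (fun n => n % 2 = 0 ∧ Q5 (max y1 y2) (n / 2)) N ≤
      cnt (fun n => (n % 2 = 1 ∧ ∃ K, Tn^[K] n ≤ max y1 y2) ∨ (n % 2 = 0 ∧ Q5 (max y1 y2) (n / 2))) N := by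
    rw [cnt_eq, cnt_eq, cnt_eq]
    rw [filter_or, card_union_of_disjoint]
    · push_cast; exact le_rfl
    · rw [Finset.disjoint_filter]
      intro n _ h1 h2
      omega
  have k4 : (N : ℝ) / 2 - 1 / 2 ≤ ((N / 2 : ℕ) : ℝ) := by
    have h4 : (N : ℝ) = 2 * ((N / 2 : ℕ) : ℝ) + ((N % 2 : ℕ) : ℝ) := by
      exact_mod_cast (Nat.div_add_mod N 2).symm
    have h5 : ((N % 2 : ℕ) : ℝ) ≤ 1 := by
      have : N % 2 ≤ 1 := by omega
      exact_mod_cast this
    linarith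
  have k5 : ((N / 2 : ℕ) : ℝ) ≤ N / 2 := by
    have h4 : (N : ℝ) = 2 * ((N / 2 : ℕ) : ℝ) + ((N % 2 : ℕ) : ℝ) := by
      exact_mod_cast (Nat.div_add_mod N 2).symm
    have h6 : (0 : ℝ) ≤ ((N % 2 : ℕ) : ℝ) := by positivity
    linarith
  have k6 : (4 / 5 : ℝ) * (N / 2 - 1 / 2) - ε * (N / 2) ≤ (4 / 5 - ε) * ((N / 2 : ℕ) : ℝ) := by
    have := mul_le_mul_of_nonneg_left k5 hε.le
    nlinarith
  linarith

end Pool.Agent.Y296.CB.DD
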