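import Pool.Agent.Y296.CB.Shadow
import Pool.Agent.H934R2.Ch.Conv

/-!
The fate of the orbits which follow the `3x+1` map from below.
-/

set_option autoImplicit false

namespace Pool.Agent.Y296.CB

open Pool.Agent.H934R2.Ch Real Filter Topology

/-- the critical points near an even integer -/
theorem crit_zone {m : ℕ} (hm : 1 ≤ m) {c : ℝ} (hc : |c - (2 * m : ℕ)| < 1 / 2) (h : deriv f c = 0) :
    c ≤ (2 * m : ℕ) ∧ (4 * (m : ℝ) + 1) * ((2 * m : ℕ) - c) ≤ 1.1 := by
  obtain ⟨h1, h2⟩ := abs_lt.1 hc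
  rw [deriv_f] at h
  have hmR : (1 : ℝ) ≤ m := by exact_mod_cast hm
  have hcm : c ≤ (2 * m : ℕ) := by
    by_contra hlt
    push Not at hlt
    have h3 := df_pos_even m (c - (2 * m : ℕ)) (by linarith) (by linarith)
    have e : ((2 * m : ℕ) : ℝ) + (c - (2 * m : ℕ)) = c := by ring
    rw [e] at h3
    linarith
  refine ⟨hcm, ?_⟩
  obtain ⟨e, he⟩ : ∃ e : ℝ, e = (2 * m : ℕ) - c := ⟨_, rfl⟩
  have hce : c = (2 * m : ℕ) - e := by rw [he]; ring
  have he0 : 0 ≤ e := by rw [he]; linarith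
  have he1 : e ≤ 1 / 2 := by rw [he]; linarith
  rw [← he]
  rw [hce, df_even_left] at h
  have hpi := Real.pi_pos
  have hs : 2 * e ≤ Real.sin (π * e) := by
    have := Real.mul_le_sin (x := π * e) (by positivity) (by nlinarith)
    have e2 : 2 / π * (π * e) = 2 * e := by field_simp
    linarith
  have hcos : 0 ≤ Real.cos (π * e) := Real.cos_nonneg_of_mem_Icc ⟨by nlinarith, by nlinarith⟩
  have h3 : π * (4 * m - 2 * e + 1) / 4 * (2 * e) ≤ 1 := by
    have : π * (4 * m - 2 * e + 1) / 4 * (2 * e) ≤ π * (4 * m - 2 * e + 1) / 4 * Real.sin (π * e) := by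
      apply mul_le_mul_of_nonneg_left hs
      have : 0 ≤ 4 * (m : ℝ) - 2 * e + 1 := by linarith
      positivity
    linarith
  have h4 : 3.14 * ((4 * m - 2 * e + 1) * e) ≤ 2 := by
    have h5 : π * ((4 * m - 2 * e + 1) * e) ≤ 2 := by linarith
    have h6 : 0 ≤ (4 * (m : ℝ) - 2 * e + 1) * e := mul_nonneg (by linarith) he0
    have h7 := Real.pi_gt_d2
    have := mul_le_mul_of_nonneg_right h7.le h6
    linarith
  have h8 : e ≤ 0.16 := by nlinarith
  nlinarith

theorem ts_zone {m : ℕ} {e : ℝ} (h0 : 0 ≤ e) (h : (4 * (m : ℝ) + 1) * e ≤ 1.1) : ts (2 * m) e ≤ 2.8 := by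
  have h1 : ts (2 * m) e = π ^ 2 * ((4 * (m : ℝ) + 1) * e) / 4 := by
    unfold ts; push_cast; ring
  rw [h1]
  have h2 := pi_sq_lt
  have h3 : 0 ≤ (4 * (m : ℝ) + 1) * e := by positivity
  nlinarith

/-- closed form of being just below -/
def Z (n : ℕ) (x : ℝ) : Prop := x ≤ n ∧ ts n (n - x) ≤ 2.8

theorem Z_of_below {m n : ℕ} (hm : 1 ≤ m) (hn : n ≤ 5 * m) {x : ℝ} (h : Below (cst m) n x) : Z n x :=
  ⟨h.1.le, ts_le hm hn (by linarith [h.1]) h.2⟩

theorem Z_dist {n : ℕ} (hn : 1 ≤ n) {x : ℝ} (h : Z n x) : (n : ℝ) - x ≤ 0.379 := by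
  obtain ⟨h1, h2⟩ := h
  have hnR : (1 : ℝ) ≤ n := by exact_mod_cast hn
  unfold ts at h2
  have hp2 := pi_sq_gt
  have h3 : 0 ≤ (n : ℝ) - x := by linarith
  have h4 : 9.8695 * 3 / 4 * ((n : ℝ) - x) ≤ π ^ 2 * (2 * (n : ℝ) + 1) / 4 * (n - x) := by
    apply mul_le_mul_of_nonneg_right _ h3
    nlinarith
  nlinarith

theorem Z_closed (n : ℕ) : IsClosed {x : ℝ | Z n x} := by
  unfold Z ts
  exact (isClosed_le continuous_id continuous_const).inter (isClosed_le
    (by fun_prop : Continuous fun x : ℝ => π ^ 2 * (2 * (n : ℝ) + 1) / 4 * (n - x)) continuous_const)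

/-- the invariant along the orbit -/
theorem V_step {n : ℕ} (hn : 1 ≤ n) {x : ℝ} (h : Z n x) (h2 : f x ≤ T n) :
    V (T n) (T n - f x) * n ≤ V n (n - x) * T n := by
  obtain ⟨h1, ht⟩ := h
  obtain ⟨e, he⟩ : ∃ e : ℝ, e = n - x := ⟨_, rfl⟩
  have hxe : x = n - e := by rw [he]; ring
  have he0 : 0 ≤ e := by rw [he]; linarith
  rw [← he] at ht ⊢
  rw [hxe] at h2 ⊢
  have hV := V_nonneg n he0
  rcases Nat.even_or_odd' n with ⟨k, rfl | rfl⟩
  · rw [T_even] at h2 ⊢
    have := V_even k (by omega) he0 ht h2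
    push_cast at this ⊢
    have hk : (0 : ℝ) ≤ k := by positivity
    nlinarith
  · rw [T_odd] at h2 ⊢
    have := V_odd k he0
    push_cast at this h2 ⊢
    have hk : (0 : ℝ) ≤ k := by positivity
    nlinarith

theorem V_pos (n : ℕ) {e : ℝ} (h : 0 < e) : 0 < V n e := by
  unfold V
  have := ts_nonneg n h.le
  positivity

theorem V_step_strict {n : ℕ} (hn : n % 2 = 1) {x : ℝ} (h1 : x < n) :
    V (T n) (T n - f x) * n < V n (n - x) * T n := by
  obtain ⟨e, he⟩ : ∃ e : ℝ, e = n - x := ⟨_, rfl⟩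
  have hxe : x = n - e := by rw [he]; ring
  have he0 : 0 < e := by rw [he]; linarith
  rw [← he, hxe]
  have hV := V_pos n he0
  obtain ⟨k, rfl⟩ := odd_cast n hn
  rw [T_odd]
  have := V_odd k he0.le
  push_cast at this ⊢
  have hk : (0 : ℝ) ≤ k := by positivity
  nlinarith

/-- iterated invariant -/
theorem V_iter {n : ℕ} (hn : 1 ≤ n) {x : ℝ} (h : ∀ i, Z (T^[i] n) (f^[i] x)) (i : ℕ) :
    V (T^[i] n) (T^[i] n - f^[i] x) * n ≤ V n (n - x) * T^[i] n := by
  induction i with
  | zero => simp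
  | succ i ih =>
    have h1 := h (i + 1)
    rw [Function.iterate_succ_apply' T, Function.iterate_succ_apply' f] at h1 ⊢
    have hp : 1 ≤ T^[i] n := T_iter_pos hn i
    have hpR : (1 : ℝ) ≤ (T^[i] n : ℕ) := by exact_mod_cast hp
    have h2 := V_step hp (h i) h1.1
    have hq : (1 : ℝ) ≤ (T (T^[i] n) : ℕ) := by exact_mod_cast T_pos hp
    have hnR : (1 : ℝ) ≤ n := by exact_mod_cast hn
    have h3 := mul_le_mul_of_nonneg_left ih (show (0 : ℝ) ≤ (T (T^[i] n) : ℕ) by linarith)
    have h4 := mul_le_mul_of_nonneg_left h2 (show (0 : ℝ) ≤ (n : ℝ) by linarith)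
    have h5 : ((T^[i] n : ℕ) : ℝ) * (V (T (T^[i] n)) (T (T^[i] n) - f (f^[i] x)) * n) ≤
        ((T^[i] n : ℕ) : ℝ) * (V n (n - x) * T (T^[i] n)) := by nlinarith
    exact le_of_mul_le_mul_left h5 (by linarith)

theorem f_nat (n : ℕ) : f n = T n := by
  rcases Nat.even_or_odd' n with ⟨k, rfl | rfl⟩
  · have := f_even k 0
    rw [add_zero] at this
    rw [this, T_even]; simp
  · have := f_odd k 0
    rw [add_zero] at this
    rw [this, T_odd]; push_cast; simp

theorem f_iter_nat (n k : ℕ) : f^[k] (n : ℝ) = T^[k] n := by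
  induction k with
  | zero => rfl
  | succ k ih => rw [Function.iterate_succ_apply', Function.iterate_succ_apply', ih, f_nat]

theorem T_le_of_even {n : ℕ} (p : ℕ) (h : ∀ i < p, T^[i] n % 2 = 0) : 2 ^ p * T^[p] n = n := by
  induction p with
  | zero => simp
  | succ p ih =>
    have h1 := ih (fun i hi => h i (by omega))
    have h2 := h p (by omega)
    rw [Function.iterate_succ_apply']
    obtain ⟨k, hk⟩ : ∃ k, T^[p] n = 2 * k := ⟨T^[p] n / 2, by omega⟩
    rw [hk, T_even, pow_succ]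
    rw [hk] at h1
    rw [← h1]; ring

/-- a periodic point just below a cycle of the `3x+1` map is an integer -/
theorem periodic_Z {n p : ℕ} (hn : 1 ≤ n) (hp : 0 < p) (hT : T^[p] n = n) {y : ℝ} (hy : f^[p] y = y)
    (h : ∀ i, Z (T^[i] n) (f^[i] y)) : y = n := by
  obtain ⟨i, hi, hodd⟩ : ∃ i < p, T^[i] n % 2 = 1 := by
    by_contra hcon
    push Not at hcon
    have h1 := T_le_of_even p (n := n) (fun i hi => by have := hcon i hi; omega)
    rw [hT] at h1
    have h2 : 2 ≤ 2 ^ p := by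
      calc 2 = 2 ^ 1 := rfl
        _ ≤ 2 ^ p := Nat.pow_le_pow_right (by norm_num) hp
    nlinarith
  have hle := (h i).1
  rcases hle.lt_or_eq with hlt | heq
  · exfalso
    set n' := T^[i] n with hn'
    set y' := f^[i] y with hy'
    have hT' : T^[p] n' = n' := by
      rw [hn', ← Function.iterate_add_apply, add_comm, Function.iterate_add_apply, hT]
    have hfy' : f^[p] y' = y' := by
      rw [hy', ← Function.iterate_add_apply, add_comm, Function.iterate_add_apply, hy]
    have hpos : 1 ≤ n' := T_iter_pos hn i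
    obtain ⟨q, rfl⟩ : ∃ q, p = q + 1 := ⟨p - 1, by omega⟩
    have h1 := V_step_strict hodd hlt
    have h2 := V_iter (n := T n') (T_pos hpos) (x := f y') (fun j => by
      have := h (j + 1 + i)
      rw [Function.iterate_add_apply, Function.iterate_add_apply f, ← hn', ← hy',
        Function.iterate_succ_apply, Function.iterate_succ_apply] at this
      exact this) q
    rw [← Function.iterate_succ_apply, ← Function.iterate_succ_apply, hT', hfy'] at h2
    have hnR : (1 : ℝ) ≤ n' := by exact_mod_cast hpos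
    nlinarith
  · have h1 : f^[p * i] y = y := by
      rw [Function.iterate_mul]; exact Function.iterate_fixed hy i
    have h2 : T^[p * i] n = n := by
      rw [Function.iterate_mul]; exact Function.iterate_fixed hT i
    have h3 : i ≤ p * i := Nat.le_mul_of_pos_left i hp
    have h4 : f^[p * i - i] (f^[i] y) = y := by
      rw [← Function.iterate_add_apply, Nat.sub_add_cancel h3, h1]
    have h5 : T^[p * i - i] (T^[i] n) = n := by
      rw [← Function.iterate_add_apply, Nat.sub_add_cancel h3, h2]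
    rw [heq, f_iter_nat, h5] at h4
    exact h4.symm

/-- an attracting cycle which attracts an orbit following from below is a cycle of integers -/
theorem attracts_Z {n : ℕ} (hn : 1 ≤ n) {x : ℝ} (h : ∀ i, Z (T^[i] n) (f^[i] x)) {y : ℝ}
    (h0 : 0 < Function.minimalPeriod f y) (hatt : Attracts y x) :
    ∃ m : ℕ, 1 ≤ m ∧ y = m ∧ (∀ k, ∃ i, k ≤ i ∧ T^[i] n = m) ∧
      T^[Function.minimalPeriod f y] m = m := by
  obtain ⟨j, hj⟩ := hatt
  set p := Function.minimalPeriod f y with hp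
  have hj' := hj
  rw [Metric.tendsto_atTop] at hj
  obtain ⟨K0, hK0⟩ := hj (1 / 10) (by norm_num)
  have hconst : ∀ k, K0 ≤ k → T^[k * p + j] n = T^[K0 * p + j] n := by
    intro k hk
    have a1 := Z_dist (T_iter_pos hn _) (h (k * p + j))
    have a2 := Z_dist (T_iter_pos hn _) (h (K0 * p + j))
    have a3 := (h (k * p + j)).1
    have a4 := (h (K0 * p + j)).1
    have b1 := abs_sub_lt_iff.1 (by have := hK0 k hk; rwa [Real.dist_eq] at this)
    have b2 := abs_sub_lt_iff.1 (by have := hK0 K0 le_rfl; rwa [Real.dist_eq] at this)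
    have c1 : ((T^[k * p + j] n : ℕ) : ℝ) < (T^[K0 * p + j] n : ℕ) + 1 := by
      linarith [b1.1, b1.2, b2.1, b2.2]
    have c2 : ((T^[K0 * p + j] n : ℕ) : ℝ) < (T^[k * p + j] n : ℕ) + 1 := by
      linarith [b1.1, b1.2, b2.1, b2.2]
    have c3 : T^[k * p + j] n < T^[K0 * p + j] n + 1 := by exact_mod_cast c1
    have c4 : T^[K0 * p + j] n < T^[k * p + j] n + 1 := by exact_mod_cast c2
    omega
  set m := T^[K0 * p + j] n with hm
  have hmT : T^[p] m = m := by
    have h1 := hconst (K0 + 1) (by omega)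
    have h2 : (K0 + 1) * p + j = p + (K0 * p + j) := by ring
    rw [h2, Function.iterate_add_apply, ← hm] at h1
    exact h1
  have hper : f^[p] y = y := Function.iterate_minimalPeriod
  have hZ : ∀ i, Z (T^[i] m) (f^[i] y) := by
    intro i
    have hcont : Continuous (f^[i]) := continuous_f.iterate i
    have h1 : Tendsto (fun k : ℕ => f^[i] (f^[k * p + j] x)) atTop (𝓝 (f^[i] y)) :=
      (hcont.tendsto y).comp hj'
    apply (Z_closed (T^[i] m)).mem_of_tendsto h1
    filter_upwards [eventually_ge_atTop K0] with k hk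
    have h2 := h (i + (k * p + j))
    rw [Function.iterate_add_apply, Function.iterate_add_apply f, hconst k hk] at h2
    exact h2
  refine ⟨m, T_iter_pos hn _, periodic_Z (T_iter_pos hn _) h0 hmT hper hZ, ?_, hmT⟩
  intro k
  refine ⟨(K0 + k) * p + j, ?_, hconst _ (by omega)⟩
  nlinarith

/-- attraction passes to later points of the orbit -/
theorem attracts_iter {y x : ℝ} (h0 : 0 < Function.minimalPeriod f y) (h : Attracts y x) (K : ℕ) :
    Attracts y (f^[K] x) := by
  obtain ⟨j, hj⟩ := h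
  obtain ⟨q, hq⟩ : ∃ q, Function.minimalPeriod f y = q + 1 := ⟨Function.minimalPeriod f y - 1, by omega⟩
  refine ⟨j + K * q, ?_⟩
  rw [hq] at hj ⊢
  have h1 := (tendsto_add_atTop_iff_nat K).2 hj
  refine h1.congr fun k => ?_
  rw [← Function.iterate_add_apply]
  congr 1
  ring

theorem attracts_of_iter {y x : ℝ} {K : ℕ} (h : Attracts y (f^[K] x)) : Attracts y x := by
  obtain ⟨j, hj⟩ := h
  refine ⟨j + K, hj.congr fun k => ?_⟩
  rw [← Function.iterate_add_apply, add_assoc]

/-- convergence from below to the cycle `{1, 2}` -/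
theorem conv_below {x : ℝ} (h : ∀ i, Z (T^[i] 1) (f^[i] x)) : Attracts 1 x := by
  refine ⟨0, ?_⟩
  rw [minPer_one]
  have hT2 : ∀ i, T^[i * 2] 1 = 1 := by
    intro i
    rw [mul_comm]; exact T_iter_one i
  have hV : ∀ i, V 1 (1 - f^[i * 2] x) ≤ (3 / 4) ^ i * V 1 (1 - x) := by
    intro i
    induction i with
    | zero => simp
    | succ i ih =>
      have z0 := h (i * 2)
      have z1 := h (i * 2 + 1)
      have z2 := h (i * 2 + 2)
      have e1 : T^[i * 2 + 1] 1 = 2 := by
        rw [Function.iterate_succ_apply', hT2]; decide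
      have e2 : T^[i * 2 + 2] 1 = 1 := by
        have := hT2 (i + 1)
        rw [show (i + 1) * 2 = i * 2 + 2 by ring] at this
        exact this
      rw [hT2] at z0
      rw [e1] at z1
      rw [e2] at z2
      rw [show (i + 1) * 2 = i * 2 + 2 by ring]
      have s1 : f^[i * 2 + 1] x = f (f^[i * 2] x) := Function.iterate_succ_apply' _ _ _
      have s2 : f^[i * 2 + 2] x = f (f^[i * 2 + 1] x) := Function.iterate_succ_apply' _ _ _
      obtain ⟨e, he⟩ : ∃ e : ℝ, e = 1 - f^[i * 2] x := ⟨_, rfl⟩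
      have a0 : 0 ≤ e := by have := z0.1; push_cast at this; linarith
      have a1 := V_odd 0 a0
      have b0 : ((2 * 0 + 1 : ℕ) : ℝ) - e = f^[i * 2] x := by rw [he]; push_cast; ring
      rw [b0, ← s1] at a1
      generalize f^[i * 2 + 1] x = u at *
      norm_num at a1
      obtain ⟨e', he'⟩ : ∃ e' : ℝ, e' = 2 - u := ⟨_, rfl⟩
      have c0 : 0 ≤ e' := by have := z1.1; push_cast at this; linarith
      have c1 : ts (2 * 1) e' ≤ 2.8 := by
        have := z1.2
        push_cast at this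
        rw [he']
        exact this
      have b1 : ((2 * 1 : ℕ) : ℝ) - e' = u := by rw [he']; push_cast; ring
      have a2 := V_even 1 le_rfl c0 c1 (by rw [b1, ← s2]; exact z2.1)
      rw [b1, ← s2] at a2
      push_cast at a2
      rw [← he'] at a1
      rw [← he] at ih
      have a3 : V (2 * 1) e' = V 2 e' := rfl
      rw [a3] at a2
      calc V 1 (1 - f^[i * 2 + 2] x) ≤ V 2 e' / 2 := a2
        _ ≤ 3 / 2 * V 1 e / 2 := by linarith
        _ = 3 / 4 * V 1 e := by ring
        _ ≤ 3 / 4 * ((3 / 4) ^ i * V 1 (1 - x)) := by linarith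
        _ = (3 / 4) ^ (i + 1) * V 1 (1 - x) := by ring
  have hb : ∀ i, ‖f^[i * 2 + 0] x - 1‖ ≤ (3 / 4) ^ i * (1.75 * V 1 (1 - x)) := by
    intro i
    rw [add_zero, Real.norm_eq_abs]
    have z0 := h (i * 2)
    rw [hT2] at z0
    obtain ⟨z1, z2⟩ := z0
    push_cast at z1 z2
    rw [abs_of_nonpos (by linarith)]
    obtain ⟨e, he⟩ : ∃ e : ℝ, e = 1 - f^[i * 2] x := ⟨_, rfl⟩
    have h1 := hV i
    rw [← he] at h1 z2
    have he0 : 0 ≤ e := by rw [he]; linarith
    have h2 : e ≤ 1.75 * V 1 e := by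
      unfold V
      have := ts_nonneg 1 he0
      rw [← mul_div_assoc, le_div_iff₀ (by positivity)]
      nlinarith
    have h3 : -(f^[i * 2] x - 1) = e := by rw [he]; ring
    rw [h3]
    calc e ≤ 1.75 * V 1 e := h2
      _ ≤ 1.75 * ((3 / 4) ^ i * V 1 (1 - x)) := by linarith
      _ = (3 / 4) ^ i * (1.75 * V 1 (1 - x)) := by ring
  rw [tendsto_iff_norm_sub_tendsto_zero]
  have h0 : Tendsto (fun k : ℕ => ((3 : ℝ) / 4) ^ k * (1.75 * V 1 (1 - x))) atTop (𝓝 0) := by
    have := (tendsto_pow_atTop_nhds_zero_of_lt_one (by norm_num : (0 : ℝ) ≤ 3 / 4)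
      (by norm_num)).mul_const (1.75 * V 1 (1 - x))
    simpa using this
  exact squeeze_zero (fun k => norm_nonneg _) hb h0

end Pool.Agent.Y296.CB
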