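import Pool.Agent.Y296.CB.Fate

/-!
The critical points just below even integers `2 m` with `T^k m ≤ 5 m` for all `k`.
-/

set_option autoImplicit false

namespace Pool.Agent.Y296.CB

open Pool.Agent.H934R2.Ch Real Filter Topology

theorem tube_fin {m K : ℕ} (hm : 1 ≤ m) (hT : ∀ k ≤ K, T^[k] m ≤ 5 * m) {x : ℝ}
    (hx : x ≤ (2 * m : ℕ)) (hz : (4 * (m : ℝ) + 1) * ((2 * m : ℕ) - x) ≤ 1.1) (k : ℕ)
    (hk : k ≤ K + 1) :
    |f^[k] x - (T^[k] (2 * m) : ℕ)| ≤ 8 / (7 * (2 * ((T^[k] (2 * m) : ℕ) : ℝ) + 1)) := by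
  have e7 : ∀ n : ℕ, (8 : ℝ) / (7 * (2 * (n : ℝ) + 1)) = 8 / 7 / (2 * n + 1) := by
    intro n; field_simp
  rw [e7]
  rcases k with _ | k
  · simp only [Function.iterate_zero, id]
    rw [abs_le]
    have h1 : ((2 * m : ℕ) : ℝ) - x ≤ 8 / 7 / (2 * ((2 * m : ℕ) : ℝ) + 1) := by
      rw [le_div_iff₀ (by positivity)]
      push_cast at hz ⊢
      linarith
    have h2 : (0 : ℝ) ≤ 8 / 7 / (2 * ((2 * m : ℕ) : ℝ) + 1) := by positivity
    constructor <;> linarith
  · have hts := ts_zone (m := m) (e := (2 * m : ℕ) - x) (by linarith) hz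
    have h1 : T^[k + 1] (2 * m) = T^[k] m := by
      rw [Function.iterate_succ_apply, T_even]
    rw [h1]
    set n := T^[k] m with hn
    have hb : (0 : ℝ) ≤ 8 / 7 / (2 * (n : ℝ) + 1) := by positivity
    rcases follow_fin hm hT hx hts k (by omega) with h | h
    · have h2 := below_dist hm (hT k (by omega)) h
      have h3 : (1.135 : ℝ) / (2 * n + 1) ≤ 8 / 7 / (2 * n + 1) :=
        div_le_div_of_nonneg_right (by norm_num) (by positivity)
      rw [abs_le]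
      constructor
      · linarith
      · linarith [h.1]
    · obtain ⟨a1, a2⟩ := h
      have h3 : b n ≤ 8 / 7 / (2 * n + 1) := by
        unfold b
        rw [div_le_div_iff₀ (by positivity) (by positivity)]
        have : (0 : ℝ) ≤ n := by positivity
        linarith
      rw [abs_le]
      constructor <;> linarith

theorem tube {m : ℕ} (hm : 1 ≤ m) (hT : ∀ k, T^[k] m ≤ 5 * m) {x : ℝ} (hx : x ≤ (2 * m : ℕ))
    (hz : (4 * (m : ℝ) + 1) * ((2 * m : ℕ) - x) ≤ 1.1) (k : ℕ) :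
    |f^[k] x - (T^[k] (2 * m) : ℕ)| ≤ 8 / (7 * (2 * ((T^[k] (2 * m) : ℕ) : ℝ) + 1)) :=
  tube_fin (K := k) hm (fun k _ => hT k) hx hz k (by omega)

theorem all_below {m : ℕ} (hm : 1 ≤ m) (hT : ∀ k, T^[k] m ≤ 5 * m) {x : ℝ}
    (h : ∀ k, Below (cst m) (T^[k] m) (f^[k + 1] x)) (K i : ℕ) :
    Z (T^[i] (T^[K] m)) (f^[i] (f^[K + 1] x)) := by
  rw [← Function.iterate_add_apply, ← Function.iterate_add_apply]
  exact Z_of_below hm (hT (i + K)) (h (i + K))

/-- which attracting cycles can attract -/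
theorem attr {a : ℝ} (ha : a ∈ Set.Icc (1.19 : ℝ) 1.196) (hga : g a = a) {m : ℕ} (hm : 1 ≤ m)
    (hT : ∀ k, T^[k] m ≤ 5 * m) {x : ℝ} (hx : x ≤ (2 * m : ℕ))
    (hz : (4 * (m : ℝ) + 1) * ((2 * m : ℕ) - x) ≤ 1.1) {y : ℝ} (hy : AttrPt y) (hatt : Attracts y x) :
    Known a y ∨ ∃ n : ℕ, 3 ≤ n ∧ (∃ k, T^[k] m = n) ∧ T^[Function.minimalPeriod f y] n = n ∧
      (n : ℝ) ≤ y ∧ y ≤ n + b n := by
  have hts := ts_zone (m := m) (e := (2 * m : ℕ) - x) (by linarith) hz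
  have key : ∃ n : ℕ, 1 ≤ n ∧ y ∈ Set.Icc (n : ℝ) (n + b n) ∧ (∃ i, T^[i] m = n) ∧
      T^[Function.minimalPeriod f y] n = n := by
    by_cases hK : ∃ K, Trap (T^[K] m) (f^[K + 1] x)
    · obtain ⟨K, hK⟩ := hK
      obtain ⟨n, h1, h2, h3, h4⟩ := attracts_D (T_iter_pos hm K) hK hy.2.1
        (attracts_iter hy.2.1 hatt (K + 1))
      obtain ⟨i, -, hi⟩ := h3 0
      exact ⟨n, h1, h2, ⟨i + K, by rw [Function.iterate_add_apply]; exact hi⟩, h4⟩
    · push Not at hK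
      have hall : ∀ k, Below (cst m) (T^[k] m) (f^[k + 1] x) := fun k =>
        (follow hm hT hx hts k).resolve_right (hK k)
      obtain ⟨n, h1, h2, h3, h4⟩ := attracts_Z (n := T^[0] m) (T_iter_pos hm 0) (x := f^[0 + 1] x)
        (fun i => all_below hm hT hall 0 i) hy.2.1 (attracts_iter hy.2.1 hatt 1)
      obtain ⟨i, -, hi⟩ := h3 0
      refine ⟨n, h1, ?_, ⟨i, hi⟩, h4⟩
      rw [h2]
      exact ⟨le_rfl, by linarith [b_pos n]⟩
  obtain ⟨n, h1, h2, h3, h4⟩ := key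
  rcases Nat.lt_or_ge n 3 with h5 | h5
  · left; exact known_of_le_two ha hga hy h1 (by omega) h2
  · right; exact ⟨n, h5, h3, h4, h2.1, h2.2⟩

/-- the three possible fates over integers which reach `1` -/
def Fate (a x : ℝ) : Prop :=
  Attracts 1 x ∨ Attracts a x ∨ ∃ K, f^[K] x ∈ Set.Icc (1.02 : ℝ) 1.05 ∧ f^[K + 2] x = f^[K] x

theorem fate_of_iter {a x : ℝ} {K : ℕ} (h : Fate a (f^[K] x)) : Fate a x := by
  rcases h with h | h | ⟨j, h1, h2⟩
  · exact Or.inl (attracts_of_iter h)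
  · exact Or.inr (Or.inl (attracts_of_iter h))
  · refine Or.inr (Or.inr ⟨j + K, ?_, ?_⟩)
    · rw [Function.iterate_add_apply]; exact h1
    · rw [show j + K + 2 = j + 2 + K by ring, Function.iterate_add_apply f (j + 2) K,
        Function.iterate_add_apply f j K]
      exact h2

theorem fate {a : ℝ} (ha : a ∈ Set.Icc (1.19 : ℝ) 1.196) (hga : g a = a) {m : ℕ} (hm : 1 ≤ m)
    (hT : ∀ k, T^[k] m ≤ 5 * m) {x : ℝ} (hx : x ≤ (2 * m : ℕ))
    (hz : (4 * (m : ℝ) + 1) * ((2 * m : ℕ) - x) ≤ 1.1) (h1 : ∃ k, T^[k] m = 1) : Fate a x := by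
  have hts := ts_zone (m := m) (e := (2 * m : ℕ) - x) (by linarith) hz
  obtain ⟨k, hk⟩ := h1
  by_cases hK : ∃ K, Trap (T^[K] m) (f^[K + 1] x)
  · obtain ⟨K, hK⟩ := hK
    have h2 : T^[k + K] (T^[K] m) = 1 := by
      rw [← Function.iterate_add_apply, show k + K + K = 2 * K + k by ring, Function.iterate_add_apply,
        hk, T_iter_one]
    exact fate_of_iter (K := K + 1) (conv_reach ha hga (T_iter_pos hm K) h2 hK)
  · push Not at hK
    have hall : ∀ k, Below (cst m) (T^[k] m) (f^[k + 1] x) := fun k =>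
      (follow hm hT hx hts k).resolve_right (hK k)
    have h3 := all_below hm hT hall k
    rw [hk] at h3
    exact fate_of_iter (K := k + 1) (Or.inl (conv_below h3))

/-- the critical points near odd integers -/
theorem crit_odd_near {n : ℕ} (hn : n % 2 = 1) {c : ℝ} (hc : |c - n| < 1 / 2) (h : deriv f c = 0) :
    c ∈ Set.Icc (n : ℝ) (n + b n) := by
  have hnR : (1 : ℝ) ≤ n := by
    have : 1 ≤ n := by omega
    exact_mod_cast this
  obtain ⟨h1, h2⟩ := abs_lt.1 hc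
  obtain ⟨k, hk, h3⟩ := crit_class (x := c) (by linarith) h
  rcases h3 with ⟨h3, h4⟩ | ⟨h3, h4⟩
  · have a1 : (k : ℝ) < n + 1 := by linarith
    have a2 : (n : ℝ) < k + 1 := by linarith
    have a3 : k < n + 1 := by exact_mod_cast a1
    have a4 : n < k + 1 := by exact_mod_cast a2
    have : k = n := by omega
    subst this
    exact crit_in_trap hk h3 h4 h
  · exfalso
    have a1 : (k : ℝ) < n := by linarith
    have a2 : (n : ℝ) < k + 2 := by linarith
    have a3 : k < n := by exact_mod_cast a1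
    have a4 : n < k + 2 := by exact_mod_cast a2
    omega

/-- existence and uniqueness of the critical point near an integer -/
theorem crit_unique {n : ℕ} (hn : 1 ≤ n) : ∃! c : ℝ, |c - n| < 1 / 2 ∧ deriv f c = 0 := by
  have hnR : (1 : ℝ) ≤ n := by exact_mod_cast hn
  rcases Nat.mod_two_eq_zero_or_one n with h | h
  · obtain ⟨c, ⟨h1, h2, h3⟩, huniq⟩ := exists_unique_even (n - 1) (by omega)
    have e : (((n - 1 : ℕ) : ℝ)) = n - 1 := by
      rw [Nat.cast_sub hn, Nat.cast_one]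
    rw [e] at h1 h2
    refine ⟨c, ⟨by rw [abs_lt]; constructor <;> linarith, h3⟩, ?_⟩
    rintro c' ⟨h4, h5⟩
    obtain ⟨h6, h7⟩ := abs_lt.1 h4
    apply huniq
    rw [e]
    obtain ⟨k, rfl⟩ : ∃ k, n = 2 * k := ⟨n / 2, by omega⟩
    have h8 := (crit_zone (m := k) (by omega) h4 h5).1
    refine ⟨by linarith, ?_, h5⟩
    have h9 : c' ≠ (2 * k : ℕ) := by
      rintro rfl
      have := df_pos_even k 0 le_rfl (by norm_num)
      rw [add_zero] at this
      rw [deriv_f] at h5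
      linarith
    have h10 := lt_of_le_of_ne h8 h9
    linarith
  · obtain ⟨c, ⟨h1, h2, h3⟩, huniq⟩ := exists_unique_odd n h
    refine ⟨c, ⟨by rw [abs_lt]; constructor <;> linarith, h3⟩, ?_⟩
    rintro c' ⟨h4, h5⟩
    obtain ⟨h6, h7⟩ := abs_lt.1 h4
    apply huniq
    have h8 := crit_odd_near h h4 h5
    refine ⟨?_, by linarith, h5⟩
    have h9 : c' ≠ n := by
      rintro rfl
      obtain ⟨m, rfl⟩ := odd_cast n h
      have := df_odd_zero m
      rw [add_zero] at this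
      rw [deriv_f] at h5
      linarith
    exact lt_of_le_of_ne h8.1 (Ne.symm h9)

theorem trap_dist {n : ℕ} {x : ℝ} (h : x ∈ Set.Icc (n : ℝ) (n + b n)) :
    |x - (n : ℕ)| ≤ 8 / (7 * (2 * (n : ℝ) + 1)) := by
  obtain ⟨a1, a2⟩ := h
  have h3 : b n ≤ 8 / (7 * (2 * (n : ℝ) + 1)) := by
    unfold b
    rw [div_le_div_iff₀ (by positivity) (by positivity)]
    have : (0 : ℝ) ≤ n := by positivity
    linarith
  have h4 : (0 : ℝ) ≤ 8 / (7 * (2 * (n : ℝ) + 1)) := by positivity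
  rw [abs_le]
  constructor <;> linarith

/-- finite time version -/
theorem good_fin {n : ℕ} (hn : 1 ≤ n) {K : ℕ}
    (h2 : n % 2 = 1 ∨ ∀ k ≤ K, T^[k] (n / 2) ≤ 5 * (n / 2)) {c : ℝ}
    (hc : |c - n| < 1 / 2) (h : deriv f c = 0) (k : ℕ) (hk : k ≤ K + 1) :
    |f^[k] c - (T^[k] n : ℕ)| ≤ 8 / (7 * (2 * ((T^[k] n : ℕ) : ℝ) + 1)) := by
  rcases Nat.mod_two_eq_zero_or_one n with hp | hp
  · obtain ⟨m, rfl⟩ : ∃ k, n = 2 * k := ⟨n / 2, by omega⟩
    have h3 : ∀ k ≤ K, T^[k] m ≤ 5 * m := by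
      rcases h2 with h2 | h2
      · omega
      · have e : 2 * m / 2 = m := by omega
        rw [e] at h2; exact h2
    obtain ⟨h4, h5⟩ := crit_zone (m := m) (by omega) hc h
    exact tube_fin (by omega) h3 h4 h5 k hk
  · exact trap_dist (shadow hn (crit_odd_near hp hc h) k)

/-- all critical points near good integers -/
theorem good {a : ℝ} (ha : a ∈ Set.Icc (1.19 : ℝ) 1.196) (hga : g a = a) {n : ℕ} (hn : 1 ≤ n)
    (h1 : ∃ k, T^[k] n = 1) (h2 : n % 2 = 1 ∨ ∀ k, T^[k] (n / 2) ≤ 5 * (n / 2)) {c : ℝ}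
    (hc : |c - n| < 1 / 2) (h : deriv f c = 0) :
    (∀ k, |f^[k] c - (T^[k] n : ℕ)| ≤ 8 / (7 * (2 * ((T^[k] n : ℕ) : ℝ) + 1))) ∧ Fate a c := by
  rcases Nat.mod_two_eq_zero_or_one n with hp | hp
  · obtain ⟨m, rfl⟩ : ∃ k, n = 2 * k := ⟨n / 2, by omega⟩
    have h3 : ∀ k, T^[k] m ≤ 5 * m := by
      rcases h2 with h2 | h2
      · omega
      · have e : 2 * m / 2 = m := by omega
        rw [e] at h2; exact h2
    have hm : 1 ≤ m := by omega
    obtain ⟨h4, h5⟩ := crit_zone hm hc h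
    have h6 : ∃ k, T^[k] m = 1 := by
      obtain ⟨k, hk⟩ := h1
      rcases k with _ | k
      · have : 2 * m = 1 := hk
        omega
      · rw [Function.iterate_succ_apply, T_even] at hk
        exact ⟨k, hk⟩
    exact ⟨tube hm h3 h4 h5, fate ha hga hm h3 h4 h5 h6⟩
  · have htrap := crit_odd_near hp hc h
    obtain ⟨k, hk⟩ := h1
    exact ⟨fun k => trap_dist (shadow hn htrap k), conv_reach ha hga hn hk htrap⟩

end Pool.Agent.Y296.CB
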