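import Pool.Agent.Y296.CB.Step

/-!
Orbits of Chamberland's map which start just below an even integer `2 m` with `T^k m ≤ 5 m` for all
`k` follow the orbit of `2 m` for all time.
-/

set_option autoImplicit false

namespace Pool.Agent.Y296.CB

open Pool.Agent.H934R2.Ch Real

theorem first_bound {t : ℝ} (h0 : 0 ≤ t) (h1 : t ≤ 2.8) :
    1 / 2 * (t - t ^ 2 + 0.0649 * t ^ 2 * (t / 2 + t ^ 2 / 12)) ≤ 0.1274 := by
  have hq : 0 ≤ 0.9623 - 0.03802 * t - 0.00541 * t ^ 2 := by nlinarith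
  have h2 := mul_nonneg (sq_nonneg (t - 0.5143)) hq
  have h3 : 0 ≤ t ^ 2 := sq_nonneg t
  have h4 : 0 ≤ t ^ 3 := pow_nonneg h0 3
  have h5 : 0 ≤ t ^ 4 := pow_nonneg h0 4
  have h6 := sq_nonneg (t - 1.7)
  nlinarith

theorem V_first (m : ℕ) (hm : 1 ≤ m) {e : ℝ} (h0 : 0 ≤ e) (ht : ts (2 * m) e ≤ 2.8)
    (h1 : f ((2 * m : ℕ) - e) ≤ m) :
    π ^ 2 * (4 * (m : ℝ) + 1) / 4 * V m (m - f ((2 * m : ℕ) - e)) ≤ 0.1274 := by
  have h2 := V_le m (e := m - f ((2 * m : ℕ) - e)) (by linarith)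
  have hL : 0 ≤ π ^ 2 * (4 * (m : ℝ) + 1) / 4 := by positivity
  refine (mul_le_mul_of_nonneg_left h2 hL).trans ?_
  exact (even_upper m hm h0).trans (first_bound (ts_nonneg _ h0) ht)

/-- below `n`, with a bound for the Lyapunov function -/
def Below (A : ℝ) (n : ℕ) (x : ℝ) : Prop := x < n ∧ V n (n - x) ≤ A * n

/-- in the trap interval -/
def Trap (n : ℕ) (x : ℝ) : Prop := x ∈ Set.Icc (n : ℝ) (n + b n)

/-- the constant of the orbit -/
noncomputable def cst (m : ℕ) : ℝ := 0.1274 * 4 / (π ^ 2 * (4 * m + 1)) / m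

theorem cst_pos {m : ℕ} (hm : 1 ≤ m) : 0 < cst m := by
  have : (1 : ℝ) ≤ m := by exact_mod_cast hm
  have := Real.pi_pos
  unfold cst; positivity

/-- a bound on `V` gives a bound on the scaled deviation -/
theorem ts_le {m n : ℕ} (hm : 1 ≤ m) (hn : n ≤ 5 * m) {e : ℝ} (h0 : 0 ≤ e)
    (h : V n e ≤ cst m * n) : ts n e ≤ 2.8 := by
  have hmR : (1 : ℝ) ≤ m := by exact_mod_cast hm
  have hnR : (n : ℝ) ≤ 5 * m := by exact_mod_cast hn
  have hn0 : (0 : ℝ) ≤ n := by positivity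
  have hpi := Real.pi_pos
  have ht0 := ts_nonneg n h0
  have h1 : π ^ 2 * (2 * (n : ℝ) + 1) / 4 * V n e ≤ π ^ 2 * (2 * (n : ℝ) + 1) / 4 * (cst m * n) :=
    mul_le_mul_of_nonneg_left h (by positivity)
  have h2 : π ^ 2 * (2 * (n : ℝ) + 1) / 4 * V n e = ts n e / (1 + 4 / 15 * ts n e) := by
    unfold V; rw [← mul_div_assoc]; rfl
  have h3 : π ^ 2 * (2 * (n : ℝ) + 1) / 4 * (cst m * n) = 0.1274 * ((2 * n + 1) * n / ((4 * m + 1) * m)) := by
    unfold cst; field_simp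
  have h4 : (2 * (n : ℝ) + 1) * n / ((4 * m + 1) * m) ≤ 12.5 := by
    rw [div_le_iff₀ (by positivity)]
    nlinarith
  rw [h2, h3, div_le_iff₀ (by positivity)] at h1
  nlinarith

/-- one step below -/
theorem step_below {m n : ℕ} (hm : 1 ≤ m) (hn1 : 1 ≤ n) (hn : n ≤ 5 * m) {x : ℝ}
    (h : Below (cst m) n x) : Below (cst m) (T n) (f x) ∨ Trap (T n) (f x) := by
  obtain ⟨hx, hV⟩ := h
  have hc := cst_pos hm
  obtain ⟨e, he⟩ : ∃ e : ℝ, e = n - x := ⟨_, rfl⟩
  have hxe : x = n - e := by rw [he]; ring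
  have he0 : 0 < e := by rw [he]; linarith
  rw [← he] at hV
  have ht := ts_le hm hn he0.le hV
  rw [hxe]
  rcases Nat.even_or_odd' n with ⟨k, rfl | rfl⟩
  · have hk : 1 ≤ k := by omega
    rw [T_even]
    rcases lt_or_ge (f ((2 * k : ℕ) - e)) k with h1 | h1
    · left
      refine ⟨h1, (V_even k hk he0.le ht h1.le).trans ?_⟩
      have : cst m * ((2 * k : ℕ) : ℝ) = 2 * (cst m * k) := by push_cast; ring
      rw [this] at hV
      linarith
    · right
      exact ⟨h1, even_over k hk he0.le ht h1⟩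
  · left
    rw [T_odd]
    have h1 := V_odd k he0.le
    have h2 := (odd_step' k he0.le).1
    refine ⟨?_, ?_⟩
    · push_cast at h2 ⊢; linarith
    · have e1 : (((3 * k + 2 : ℕ) : ℝ)) = 3 * (k : ℝ) + 2 := by push_cast; ring
      rw [e1]
      refine h1.trans ?_
      have e2 : cst m * ((2 * k + 1 : ℕ) : ℝ) = cst m * (2 * k + 1) := by push_cast; ring
      rw [e2] at hV
      nlinarith

/-- **Following from below**, up to a finite time. -/
theorem follow_fin {m K : ℕ} (hm : 1 ≤ m) (hT : ∀ k ≤ K, T^[k] m ≤ 5 * m) {x : ℝ}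
    (hx : x ≤ (2 * m : ℕ)) (ht : ts (2 * m) ((2 * m : ℕ) - x) ≤ 2.8) (k : ℕ) (hk : k ≤ K) :
    Below (cst m) (T^[k] m) (f^[k + 1] x) ∨ Trap (T^[k] m) (f^[k + 1] x) := by
  induction k with
  | zero =>
    obtain ⟨e, he⟩ : ∃ e : ℝ, e = (2 * m : ℕ) - x := ⟨_, rfl⟩
    have hxe : x = (2 * m : ℕ) - e := by rw [he]; ring
    have he0 : 0 ≤ e := by rw [he]; linarith
    rw [← he] at ht
    simp only [Function.iterate_zero, id, zero_add, Function.iterate_one]
    rw [hxe]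
    rcases lt_or_ge (f ((2 * m : ℕ) - e)) m with h1 | h1
    · left
      refine ⟨h1, ?_⟩
      have h2 := V_first m hm he0 ht h1.le
      have hmR : (1 : ℝ) ≤ m := by exact_mod_cast hm
      have hpi := Real.pi_pos
      have h3 : cst m * m = 0.1274 / (π ^ 2 * (4 * (m : ℝ) + 1) / 4) := by
        unfold cst; field_simp
      rw [h3, le_div_iff₀ (by positivity), mul_comm]
      exact h2
    · right
      exact ⟨h1, even_over m hm he0 ht h1⟩
  | succ k ih =>
    rw [Function.iterate_succ_apply' T, Function.iterate_succ_apply' f]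
    rcases ih (by omega) with h | h
    · exact step_below hm (T_iter_pos hm k) (hT k (by omega)) h
    · right
      exact trap (T_iter_pos hm k) h

/-- **Following from below.** -/
theorem follow {m : ℕ} (hm : 1 ≤ m) (hT : ∀ k, T^[k] m ≤ 5 * m) {x : ℝ} (hx : x ≤ (2 * m : ℕ))
    (ht : ts (2 * m) ((2 * m : ℕ) - x) ≤ 2.8) (k : ℕ) :
    Below (cst m) (T^[k] m) (f^[k + 1] x) ∨ Trap (T^[k] m) (f^[k + 1] x) :=
  follow_fin (K := k) hm (fun k _ => hT k) hx ht k le_rfl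

/-- the distance to the integer orbit -/
theorem below_dist {m n : ℕ} (hm : 1 ≤ m) (hn : n ≤ 5 * m) {x : ℝ} (h : Below (cst m) n x) :
    n - x ≤ 1.135 / (2 * n + 1) := by
  obtain ⟨hx, hV⟩ := h
  have ht := ts_le hm hn (by linarith) hV
  unfold ts at ht
  have hp2 := pi_sq_gt
  rw [le_div_iff₀ (by positivity)]
  have h1 : π ^ 2 * (((n : ℝ) - x) * (2 * n + 1)) ≤ 11.2 := by linarith
  have h2 : 0 ≤ ((n : ℝ) - x) * (2 * n + 1) := by
    have : 0 ≤ (n : ℝ) - x := by linarith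
    positivity
  nlinarith

end Pool.Agent.Y296.CB
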