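import Pool.Agent.H934R2.Ch.Basic

/-!
One step of Chamberland's map just below an integer: the quantity `V n e / n` decreases along the
orbit of the `3x+1` map as long as the scaled deviation is at most `2.8`, and an overshoot at an even
integer is caught by the trap interval.
-/

set_option autoImplicit false

namespace Pool.Agent.Y296.CB

open Pool.Agent.H934R2.Ch Real

/-- scaled deviation -/
noncomputable def ts (n : ℕ) (e : ℝ) : ℝ := π ^ 2 * (2 * (n : ℝ) + 1) / 4 * e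

/-- the Lyapunov function -/
noncomputable def V (n : ℕ) (e : ℝ) : ℝ := e / (1 + 4 / 15 * ts n e)

theorem ts_nonneg (n : ℕ) {e : ℝ} (h : 0 ≤ e) : 0 ≤ ts n e := by unfold ts; positivity

theorem ts_pos (n : ℕ) {e : ℝ} (h : 0 < e) : 0 < ts n e := by
  unfold ts
  have := Real.pi_pos
  positivity

/-- the deviation after an even step -/
theorem even_upper (m : ℕ) (hm : 1 ≤ m) {e : ℝ} (h0 : 0 ≤ e) :
    π ^ 2 * (4 * (m : ℝ) + 1) / 4 * (m - f ((2 * m : ℕ) - e)) ≤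
      1 / 2 * (ts (2 * m) e - ts (2 * m) e ^ 2
        + 0.0649 * ts (2 * m) e ^ 2 * (ts (2 * m) e / 2 + ts (2 * m) e ^ 2 / 12)) := by
  have hf := f_even m (-e)
  have e1 : ((2 * m : ℕ) : ℝ) + -e = ((2 * m : ℕ) : ℝ) - e := by ring
  have e2 : π * -e = -(π * e) := by ring
  rw [e1, e2, Real.cos_neg] at hf
  rw [hf]
  set c := Real.cos (π * e) with hc
  have hpe : 0 ≤ π * e := mul_nonneg Real.pi_pos.le h0
  have hc1 : 1 - (π * e) ^ 2 / 2 ≤ c := cos_lb2 _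
  have hc2 : c ≤ 1 - (π * e) ^ 2 / 2 + (π * e) ^ 4 / 24 := cos_ub4 hpe
  have hmR : (1 : ℝ) ≤ m := by exact_mod_cast hm
  obtain ⟨M, hM⟩ : ∃ M : ℝ, M = 4 * (m : ℝ) + 1 := ⟨_, rfl⟩
  have hM5 : 5 ≤ M := by linarith
  have hts : ts (2 * m) e = π ^ 2 * M / 4 * e := by
    unfold ts; rw [hM]; push_cast; ring
  rw [hts, ← hM]
  have h1 : (m : ℝ) - (m + (M / 4 * (1 - c) + -e * (1 - c / 2))) ≤
      e / 2 + e * (π * e) ^ 2 / 4 - M / 4 * ((π * e) ^ 2 / 2 - (π * e) ^ 4 / 24) := by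
    have a1 : M / 4 * ((π * e) ^ 2 / 2 - (π * e) ^ 4 / 24) ≤ M / 4 * (1 - c) := by
      apply mul_le_mul_of_nonneg_left _ (by linarith)
      linarith
    have a2 : e * (1 - c / 2) ≤ e * (1 / 2 + (π * e) ^ 2 / 4) := by
      apply mul_le_mul_of_nonneg_left _ h0
      linarith
    linarith
  have hp2 := pi_sq_gt
  have h2 : 0 ≤ π ^ 2 * M / 4 := by positivity
  refine (mul_le_mul_of_nonneg_left h1 h2).trans ?_
  obtain ⟨t, ht⟩ : ∃ t : ℝ, t = π ^ 2 * M / 4 * e := ⟨_, rfl⟩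
  have ht0 : 0 ≤ t := by rw [ht]; positivity
  have hth : (π * e) ^ 2 ≤ 0.0649 * t ^ 2 := by
    have b1 : t ^ 2 = (π * e) ^ 2 * (π ^ 2 * M ^ 2 / 16) := by rw [ht]; ring
    rw [b1]
    have b2 : 1 ≤ 0.0649 * (π ^ 2 * M ^ 2 / 16) := by
      have : (25 : ℝ) ≤ M ^ 2 := by nlinarith
      nlinarith
    nlinarith [sq_nonneg (π * e)]
  have key : π ^ 2 * M / 4 * (e / 2 + e * (π * e) ^ 2 / 4 - M / 4 * ((π * e) ^ 2 / 2 - (π * e) ^ 4 / 24))
      = 1 / 2 * (t - t ^ 2 + (π * e) ^ 2 * (t / 2 + t ^ 2 / 12)) := by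
    rw [ht]; ring
  rw [key, ← ht]
  have h3 : (π * e) ^ 2 * (t / 2 + t ^ 2 / 12) ≤ 0.0649 * t ^ 2 * (t / 2 + t ^ 2 / 12) :=
    mul_le_mul_of_nonneg_right hth (by positivity)
  linarith

/-- the overshoot after an even step -/
theorem even_over (m : ℕ) (hm : 1 ≤ m) {e : ℝ} (h0 : 0 ≤ e) (ht : ts (2 * m) e ≤ 2.8)
    (hf0 : (m : ℝ) ≤ f ((2 * m : ℕ) - e)) : f ((2 * m : ℕ) - e) ≤ m + b m := by
  have hf := f_even m (-e)
  have e1 : ((2 * m : ℕ) : ℝ) + -e = ((2 * m : ℕ) : ℝ) - e := by ring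
  have e2 : π * -e = -(π * e) := by ring
  rw [e1, e2, Real.cos_neg] at hf
  rw [hf] at hf0 ⊢
  set c := Real.cos (π * e) with hc
  have hc0 : c ≤ 1 := Real.cos_le_one _
  have hc1 : 1 - (π * e) ^ 2 / 2 ≤ c := cos_lb2 _
  have hmR : (1 : ℝ) ≤ m := by exact_mod_cast hm
  obtain ⟨M, hM⟩ : ∃ M : ℝ, M = 4 * (m : ℝ) + 1 := ⟨_, rfl⟩
  have hM5 : 5 ≤ M := by linarith
  have hts : ts (2 * m) e = π ^ 2 * M / 4 * e := by
    unfold ts; rw [hM]; push_cast; ring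
  rw [hts] at ht
  rw [← hM] at hf0 ⊢
  obtain ⟨t, htd⟩ : ∃ t : ℝ, t = π ^ 2 * M / 4 * e := ⟨_, rfl⟩
  rw [← htd] at ht
  have ht0 : 0 ≤ t := by rw [htd]; positivity
  -- overshoot at most `e / 2 * (t - 1)`
  have a1 : M / 4 * (1 - c) ≤ M / 4 * ((π * e) ^ 2 / 2) := by
    apply mul_le_mul_of_nonneg_left _ (by linarith)
    linarith
  have a2 : e / 2 ≤ e * (1 - c / 2) := by nlinarith
  have a3 : M / 4 * ((π * e) ^ 2 / 2) = e / 2 * t := by rw [htd]; ring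
  have a4 : M / 4 * (1 - c) + -e * (1 - c / 2) ≤ e / 2 * (t - 1) := by linarith
  have a5 : 0 ≤ e / 2 * (t - 1) := by linarith
  have a6 : e * M ≤ 1.135 := by
    have hp2 := pi_sq_gt
    have : π ^ 2 * (e * M) = 4 * t := by rw [htd]; ring
    have h7 : 0 ≤ e * M := by positivity
    nlinarith
  have a7 : e / 2 * (t - 1) * M ≤ 1.0215 := by
    have : e / 2 * (t - 1) * M = e * M * (t - 1) / 2 := by ring
    rw [this]
    have h7 : 0 ≤ e * M := by positivity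
    nlinarith
  have hb : b m = 5 / (3 * (M + 1)) := by
    unfold b; rw [hM]
    have : (2 * (m : ℝ) + 1) ≠ 0 := by positivity
    have : (4 * (m : ℝ) + 1 + 1) ≠ 0 := by positivity
    field_simp; ring
  have a8 : e / 2 * (t - 1) ≤ 5 / (3 * (M + 1)) := by
    rw [le_div_iff₀ (by linarith)]
    nlinarith
  rw [hb]
  linarith

/-- the deviation after an odd step -/
theorem odd_step' (m : ℕ) {e : ℝ} (h0 : 0 ≤ e) :
    e / 2 ≤ (3 * m + 2 : ℝ) - f ((2 * m + 1 : ℕ) - e) ∧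
    (3 * m + 2 : ℝ) - f ((2 * m + 1 : ℕ) - e) ≤ 3 / 2 * e * (1 + ts (2 * m + 1) e / 3) := by
  have hf := f_odd m (-e)
  have e1 : ((2 * m + 1 : ℕ) : ℝ) + -e = ((2 * m + 1 : ℕ) : ℝ) - e := by ring
  have e2 : π * -e = -(π * e) := by ring
  rw [e1, e2, Real.cos_neg] at hf
  rw [hf]
  set c := Real.cos (π * e) with hc
  have hc0 : c ≤ 1 := Real.cos_le_one _
  have hcm : -1 ≤ c := Real.neg_one_le_cos _
  have hc1 : 1 - (π * e) ^ 2 / 2 ≤ c := cos_lb2 _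
  have hmR : (0 : ℝ) ≤ m := by positivity
  have hts : ts (2 * m + 1) e = π ^ 2 * (4 * m + 3) / 4 * e := by
    unfold ts; push_cast; ring
  rw [hts]
  have a1 : (4 * (m : ℝ) + 3) / 4 * (1 - c) ≤ (4 * (m : ℝ) + 3) / 4 * ((π * e) ^ 2 / 2) := by
    apply mul_le_mul_of_nonneg_left _ (by positivity)
    linarith
  have a2 : 0 ≤ (4 * (m : ℝ) + 3) / 4 * (1 - c) := mul_nonneg (by positivity) (by linarith)
  have a3 : e * (1 + c / 2) ≤ e * (3 / 2) := mul_le_mul_of_nonneg_left (by linarith) h0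
  have a4 : e * (1 / 2) ≤ e * (1 + c / 2) := mul_le_mul_of_nonneg_left (by linarith) h0
  constructor
  · linarith
  · have a5 : 3 / 2 * e * (1 + π ^ 2 * (4 * (m : ℝ) + 3) / 4 * e / 3)
        = 3 / 2 * e + (4 * (m : ℝ) + 3) / 4 * ((π * e) ^ 2 / 2) := by ring
    rw [a5]
    linarith

theorem V_nonneg (n : ℕ) {e : ℝ} (h : 0 ≤ e) : 0 ≤ V n e := by
  unfold V
  have := ts_nonneg n h
  positivity

theorem V_le (n : ℕ) {e : ℝ} (h : 0 ≤ e) : V n e ≤ e := by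
  unfold V
  have := ts_nonneg n h
  rw [div_le_iff₀ (by positivity)]
  nlinarith [mul_nonneg h this]

/-- the even step -/
theorem V_even (m : ℕ) (hm : 1 ≤ m) {e : ℝ} (h0 : 0 ≤ e) (ht : ts (2 * m) e ≤ 2.8)
    (h1 : f ((2 * m : ℕ) - e) ≤ m) : V m (m - f ((2 * m : ℕ) - e)) ≤ V (2 * m) e / 2 := by
  have h2 := V_le m (e := m - f ((2 * m : ℕ) - e)) (by linarith)
  refine h2.trans ?_
  have h3 := even_upper m hm h0
  obtain ⟨t, htd⟩ : ∃ t : ℝ, t = ts (2 * m) e := ⟨_, rfl⟩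
  have ht0 : 0 ≤ t := by rw [htd]; exact ts_nonneg _ h0
  unfold V
  rw [← htd] at ht h3 ⊢
  have hmR : (1 : ℝ) ≤ m := by exact_mod_cast hm
  have hte : t = π ^ 2 * (4 * (m : ℝ) + 1) / 4 * e := by
    rw [htd]; unfold ts; push_cast; ring
  have hL : 0 < π ^ 2 * (4 * (m : ℝ) + 1) / 4 := by have := Real.pi_pos; positivity
  rw [div_div, le_div_iff₀ (by positivity)]
  apply le_of_mul_le_mul_left _ hL
  rw [← mul_assoc, ← hte]
  refine (mul_le_mul_of_nonneg_right h3 (by positivity)).trans ?_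
  nlinarith [mul_nonneg ht0 ht0, mul_nonneg (mul_nonneg ht0 ht0) ht0,
    mul_nonneg (mul_nonneg ht0 ht0) (sub_nonneg.2 ht),
    mul_nonneg (mul_nonneg (mul_nonneg ht0 ht0) ht0) (sub_nonneg.2 ht),
    mul_nonneg (mul_nonneg (mul_nonneg (mul_nonneg ht0 ht0) ht0) ht0) (sub_nonneg.2 ht)]

theorem V_mono (n : ℕ) {e e' : ℝ} (h0 : 0 ≤ e) (h : e ≤ e') : V n e ≤ V n e' := by
  unfold V ts
  have hL : 0 ≤ π ^ 2 * (2 * (n : ℝ) + 1) / 4 := by positivity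
  rw [div_le_div_iff₀ (by positivity) (by have : 0 ≤ e' := h0.trans h; positivity)]
  nlinarith

/-- the odd step -/
theorem V_odd (m : ℕ) {e : ℝ} (h0 : 0 ≤ e) :
    V (3 * m + 2) ((3 * m + 2 : ℝ) - f ((2 * m + 1 : ℕ) - e)) ≤ 3 / 2 * V (2 * m + 1) e := by
  obtain ⟨h1, h2⟩ := odd_step' m h0
  refine (V_mono _ (by linarith) h2).trans ?_
  obtain ⟨t, htd⟩ : ∃ t : ℝ, t = ts (2 * m + 1) e := ⟨_, rfl⟩
  have ht0 : 0 ≤ t := by rw [htd]; exact ts_nonneg _ h0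
  have hmR : (0 : ℝ) ≤ m := by positivity
  have hte : t = π ^ 2 * (4 * (m : ℝ) + 3) / 4 * e := by
    rw [htd]; unfold ts; push_cast; ring
  have h3 : 9 / 4 * t * (1 + t / 3) ≤ ts (3 * m + 2) (3 / 2 * e * (1 + t / 3)) := by
    have : ts (3 * m + 2) (3 / 2 * e * (1 + t / 3))
        = 3 / 2 * (1 + t / 3) * (π ^ 2 * (6 * (m : ℝ) + 5) / 4 * e) := by
      unfold ts; push_cast; ring
    rw [this]
    have h4 : 3 / 2 * t ≤ π ^ 2 * (6 * (m : ℝ) + 5) / 4 * e := by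
      rw [hte]
      have : 0 ≤ π ^ 2 * e := by positivity
      nlinarith
    have h5 : 0 ≤ 3 / 2 * (1 + t / 3) := by positivity
    nlinarith [mul_le_mul_of_nonneg_left h4 h5]
  unfold V
  rw [← htd]
  have h6 : 0 < 1 + 4 / 15 * ts (3 * m + 2) (3 / 2 * e * (1 + t / 3)) := by
    have : 0 ≤ 9 / 4 * t * (1 + t / 3) := by positivity
    linarith
  rw [← mul_div_assoc, div_le_div_iff₀ h6 (by positivity)]
  have h7 : (1 + t / 3) * (1 + 4 / 15 * t) ≤ 1 + 4 / 15 * ts (3 * m + 2) (3 / 2 * e * (1 + t / 3)) := by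
    nlinarith
  nlinarith [mul_le_mul_of_nonneg_left h7 (by positivity : (0 : ℝ) ≤ 3 / 2 * e)]

end Pool.Agent.Y296.CB
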